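import Pool.Agent.N929.OM.Stm
import Pool.Agent.N40.ON.PASS

/-!
Project OM (helper929), part PASS (helper324): the path in a good pattern.
-/

set_option autoImplicit false

namespace Pool.Agent.N324.OM

open Pool.Agent.N929.ON Pool.Agent.N929.OM Pool.Agent.N40.ON

noncomputable section

theorem fr {x y x' y' a b : ℤ} {k : Fin 6} (hd : dir (k + 1) = (a, b)) (hx : x + a = x')
    (hy : y + b = y') : front (((x, y), k) : St) = (x', y') := by
  subst hx hy
  show (x, y) + dir (k + 1) = _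
  rw [hd]
  rfl

theorem case0_f {σ : ℤ × ℤ → Bool} {x y : ℤ} (p1 : σ (x, y + 1) = true) (p2 : σ (x, y + 2) = true) (p3 : σ (x, y + 3) = true) (m1 : σ (x + 1, y + 1) = false) (m2 : σ (x + 2, y + 1) = false) (m3 : σ (x + 2, y + 2) = false) (m4 : σ (x + 1, y + 3) = false) (hf : σ (x + 1, y + 2) = false) :
    (step σ)^[6] ((x, y), 0) = ((x, y + 3), 0) ∧
    (∀ i < 6, front ((step σ)^[i] ((x, y), 0)) ∈ ([(x, y + 1), (x, y + 2), (x, y + 3), (x + 1, y + 1), (x + 2, y + 1), (x + 2, y + 2), (x + 1, y + 3), (x + 1, y + 2)] : List (ℤ × ℤ))) ∧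
    ∀ s, Val σ s → Tch (x + 1, y + 2) s → ∃ i, 0 < i ∧ i < 6 ∧ (step σ)^[i] ((x, y), 0) = s := by
  have h0 : (step σ)^[0] ((x, y), 0) = ((x, y), 0) := rfl
  have h1 : (step σ)^[1] ((x, y), 0) = ((x, y + 1), 5) :=
    it_succ h0 (step_t (a := 0) (b := 1) rfl rfl (by ring) (by ring) p1)
  have h2 : (step σ)^[2] ((x, y), 0) = ((x, y + 1), 0) :=
    it_succ h1 (step_f (a := 1) (b := 0) (x' := x + 1) (y' := y + 1) rfl rfl (by ring) (by ring) m1)
  have h3 : (step σ)^[3] ((x, y), 0) = ((x, y + 2), 5) :=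
    it_succ h2 (step_t (a := 0) (b := 1) rfl rfl (by ring) (by ring) p2)
  have h4 : (step σ)^[4] ((x, y), 0) = ((x, y + 2), 0) :=
    it_succ h3 (step_f (a := 1) (b := 0) (x' := x + 1) (y' := y + 2) rfl rfl (by ring) (by ring) hf)
  have h5 : (step σ)^[5] ((x, y), 0) = ((x, y + 3), 5) :=
    it_succ h4 (step_t (a := 0) (b := 1) rfl rfl (by ring) (by ring) p3)
  have h6 : (step σ)^[6] ((x, y), 0) = ((x, y + 3), 0) :=
    it_succ h5 (step_f (a := 1) (b := 0) (x' := x + 1) (y' := y + 3) rfl rfl (by ring) (by ring) m4)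
  refine ⟨h6, ?_, ?_⟩
  · intro i hi
    interval_cases i
    · rw [h0, fr (a := 0) (b := 1) (x' := x) (y' := y + 1) rfl (by ring) (by ring)]; simp
    · rw [h1, fr (a := 1) (b := 0) (x' := x + 1) (y' := y + 1) rfl (by ring) (by ring)]; simp
    · rw [h2, fr (a := 0) (b := 1) (x' := x) (y' := y + 2) rfl (by ring) (by ring)]; simp
    · rw [h3, fr (a := 1) (b := 0) (x' := x + 1) (y' := y + 2) rfl (by ring) (by ring)]; simp
    · rw [h4, fr (a := 0) (b := 1) (x' := x) (y' := y + 3) rfl (by ring) (by ring)]; simp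
    · rw [h5, fr (a := 1) (b := 0) (x' := x + 1) (y' := y + 3) rfl (by ring) (by ring)]; simp
  · intro s hv ht
    have ht' := touch hv ht
    simp only [show x + 1 + 1 = x + 2 by ring, show x + 1 - 1 = x by ring, show y + 2 + 1 = y + 3 by ring, show y + 2 - 1 = y + 1 by ring] at ht'
    rw [m3, m4, p3, p2, m1, m2, hf] at ht'
    simp only [Bool.false_eq_true, Bool.true_eq_false, and_false, false_and, or_false, false_or,
      and_true, true_and] at ht'
    rcases ht' with (rfl | rfl) | rfl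
    · exact ⟨4, by norm_num, by norm_num, h4⟩
    · exact ⟨5, by norm_num, by norm_num, h5⟩
    · exact ⟨3, by norm_num, by norm_num, h3⟩

theorem case0_t {σ : ℤ × ℤ → Bool} {x y : ℤ} (p1 : σ (x, y + 1) = true) (p2 : σ (x, y + 2) = true) (p3 : σ (x, y + 3) = true) (m1 : σ (x + 1, y + 1) = false) (m2 : σ (x + 2, y + 1) = false) (m3 : σ (x + 2, y + 2) = false) (m4 : σ (x + 1, y + 3) = false) (hf : σ (x + 1, y + 2) = true) :
    (step σ)^[8] ((x, y), 0) = ((x, y + 3), 0) ∧
    (∀ i < 8, front ((step σ)^[i] ((x, y), 0)) ∈ ([(x, y + 1), (x, y + 2), (x, y + 3), (x + 1, y + 1), (x + 2, y + 1), (x + 2, y + 2), (x + 1, y + 3), (x + 1, y + 2)] : List (ℤ × ℤ))) ∧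
    ∀ s, Val σ s → Tch (x + 1, y + 2) s → ∃ i, 0 < i ∧ i < 8 ∧ (step σ)^[i] ((x, y), 0) = s := by
  have h0 : (step σ)^[0] ((x, y), 0) = ((x, y), 0) := rfl
  have h1 : (step σ)^[1] ((x, y), 0) = ((x, y + 1), 5) :=
    it_succ h0 (step_t (a := 0) (b := 1) rfl rfl (by ring) (by ring) p1)
  have h2 : (step σ)^[2] ((x, y), 0) = ((x, y + 1), 0) :=
    it_succ h1 (step_f (a := 1) (b := 0) (x' := x + 1) (y' := y + 1) rfl rfl (by ring) (by ring) m1)
  have h3 : (step σ)^[3] ((x, y), 0) = ((x, y + 2), 5) :=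
    it_succ h2 (step_t (a := 0) (b := 1) rfl rfl (by ring) (by ring) p2)
  have h4 : (step σ)^[4] ((x, y), 0) = ((x + 1, y + 2), 4) :=
    it_succ h3 (step_t (a := 1) (b := 0) rfl rfl (by ring) (by ring) hf)
  have h5 : (step σ)^[5] ((x, y), 0) = ((x + 1, y + 2), 5) :=
    it_succ h4 (step_f (a := 1) (b := -1) (x' := x + 2) (y' := y + 1) rfl rfl (by ring) (by ring) m2)
  have h6 : (step σ)^[6] ((x, y), 0) = ((x + 1, y + 2), 0) :=
    it_succ h5 (step_f (a := 1) (b := 0) (x' := x + 2) (y' := y + 2) rfl rfl (by ring) (by ring) m3)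
  have h7 : (step σ)^[7] ((x, y), 0) = ((x + 1, y + 2), 1) :=
    it_succ h6 (step_f (a := 0) (b := 1) (x' := x + 1) (y' := y + 3) rfl rfl (by ring) (by ring) m4)
  have h8 : (step σ)^[8] ((x, y), 0) = ((x, y + 3), 0) :=
    it_succ h7 (step_t (a := -1) (b := 1) rfl rfl (by ring) (by ring) p3)
  refine ⟨h8, ?_, ?_⟩
  · intro i hi
    interval_cases i
    · rw [h0, fr (a := 0) (b := 1) (x' := x) (y' := y + 1) rfl (by ring) (by ring)]; simp
    · rw [h1, fr (a := 1) (b := 0) (x' := x + 1) (y' := y + 1) rfl (by ring) (by ring)]; simp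
    · rw [h2, fr (a := 0) (b := 1) (x' := x) (y' := y + 2) rfl (by ring) (by ring)]; simp
    · rw [h3, fr (a := 1) (b := 0) (x' := x + 1) (y' := y + 2) rfl (by ring) (by ring)]; simp
    · rw [h4, fr (a := 1) (b := -1) (x' := x + 2) (y' := y + 1) rfl (by ring) (by ring)]; simp
    · rw [h5, fr (a := 1) (b := 0) (x' := x + 2) (y' := y + 2) rfl (by ring) (by ring)]; simp
    · rw [h6, fr (a := 0) (b := 1) (x' := x + 1) (y' := y + 3) rfl (by ring) (by ring)]; simp
    · rw [h7, fr (a := -1) (b := 1) (x' := x) (y' := y + 3) rfl (by ring) (by ring)]; simp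
  · intro s hv ht
    have ht' := touch hv ht
    simp only [show x + 1 + 1 = x + 2 by ring, show x + 1 - 1 = x by ring, show y + 2 + 1 = y + 3 by ring, show y + 2 - 1 = y + 1 by ring] at ht'
    rw [m3, m4, p3, p2, m1, m2, hf] at ht'
    simp only [Bool.false_eq_true, Bool.true_eq_false, and_false, false_and, or_false, false_or,
      and_true, true_and] at ht'
    rcases ht' with (rfl | rfl | rfl | rfl) | rfl
    · exact ⟨6, by norm_num, by norm_num, h6⟩
    · exact ⟨7, by norm_num, by norm_num, h7⟩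
    · exact ⟨4, by norm_num, by norm_num, h4⟩
    · exact ⟨5, by norm_num, by norm_num, h5⟩
    · exact ⟨3, by norm_num, by norm_num, h3⟩

theorem case2_f {σ : ℤ × ℤ → Bool} {x y : ℤ} (p1 : σ (x - 1, y) = true) (p2 : σ (x - 2, y) = true) (p3 : σ (x - 3, y) = true) (m1 : σ (x - 2, y + 1) = false) (m2 : σ (x - 3, y + 2) = false) (m3 : σ (x - 4, y + 2) = false) (m4 : σ (x - 4, y + 1) = false) (hf : σ (x - 3, y + 1) = false) :
    (step σ)^[6] ((x, y), 2) = ((x - 3, y), 2) ∧
    (∀ i < 6, front ((step σ)^[i] ((x, y), 2)) ∈ ([(x - 1, y), (x - 2, y), (x - 3, y), (x - 2, y + 1), (x - 3, y + 2), (x - 4, y + 2), (x - 4, y + 1), (x - 3, y + 1)] : List (ℤ × ℤ))) ∧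
    ∀ s, Val σ s → Tch (x - 3, y + 1) s → ∃ i, 0 < i ∧ i < 6 ∧ (step σ)^[i] ((x, y), 2) = s := by
  have h0 : (step σ)^[0] ((x, y), 2) = ((x, y), 2) := rfl
  have h1 : (step σ)^[1] ((x, y), 2) = ((x - 1, y), 1) :=
    it_succ h0 (step_t (a := -1) (b := 0) rfl rfl (by ring) (by ring) p1)
  have h2 : (step σ)^[2] ((x, y), 2) = ((x - 1, y), 2) :=
    it_succ h1 (step_f (a := -1) (b := 1) (x' := x - 2) (y' := y + 1) rfl rfl (by ring) (by ring) m1)
  have h3 : (step σ)^[3] ((x, y), 2) = ((x - 2, y), 1) :=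
    it_succ h2 (step_t (a := -1) (b := 0) rfl rfl (by ring) (by ring) p2)
  have h4 : (step σ)^[4] ((x, y), 2) = ((x - 2, y), 2) :=
    it_succ h3 (step_f (a := -1) (b := 1) (x' := x - 3) (y' := y + 1) rfl rfl (by ring) (by ring) hf)
  have h5 : (step σ)^[5] ((x, y), 2) = ((x - 3, y), 1) :=
    it_succ h4 (step_t (a := -1) (b := 0) rfl rfl (by ring) (by ring) p3)
  have h6 : (step σ)^[6] ((x, y), 2) = ((x - 3, y), 2) :=
    it_succ h5 (step_f (a := -1) (b := 1) (x' := x - 4) (y' := y + 1) rfl rfl (by ring) (by ring) m4)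
  refine ⟨h6, ?_, ?_⟩
  · intro i hi
    interval_cases i
    · rw [h0, fr (a := -1) (b := 0) (x' := x - 1) (y' := y) rfl (by ring) (by ring)]; simp
    · rw [h1, fr (a := -1) (b := 1) (x' := x - 2) (y' := y + 1) rfl (by ring) (by ring)]; simp
    · rw [h2, fr (a := -1) (b := 0) (x' := x - 2) (y' := y) rfl (by ring) (by ring)]; simp
    · rw [h3, fr (a := -1) (b := 1) (x' := x - 3) (y' := y + 1) rfl (by ring) (by ring)]; simp
    · rw [h4, fr (a := -1) (b := 0) (x' := x - 3) (y' := y) rfl (by ring) (by ring)]; simp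
    · rw [h5, fr (a := -1) (b := 1) (x' := x - 4) (y' := y + 1) rfl (by ring) (by ring)]; simp
  · intro s hv ht
    have ht' := touch hv ht
    simp only [show x - 3 + 1 = x - 2 by ring, show x - 3 - 1 = x - 4 by ring, show y + 1 + 1 = y + 2 by ring, show y + 1 - 1 = y by ring] at ht'
    rw [m1, m2, m3, m4, p3, p2, hf] at ht'
    simp only [Bool.false_eq_true, Bool.true_eq_false, and_false, false_and, or_false, false_or,
      and_true, true_and] at ht'
    rcases ht' with (rfl | rfl) | rfl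
    · exact ⟨5, by norm_num, by norm_num, h5⟩
    · exact ⟨4, by norm_num, by norm_num, h4⟩
    · exact ⟨3, by norm_num, by norm_num, h3⟩

theorem case2_t {σ : ℤ × ℤ → Bool} {x y : ℤ} (p1 : σ (x - 1, y) = true) (p2 : σ (x - 2, y) = true) (p3 : σ (x - 3, y) = true) (m1 : σ (x - 2, y + 1) = false) (m2 : σ (x - 3, y + 2) = false) (m3 : σ (x - 4, y + 2) = false) (m4 : σ (x - 4, y + 1) = false) (hf : σ (x - 3, y + 1) = true) :
    (step σ)^[8] ((x, y), 2) = ((x - 3, y), 2) ∧
    (∀ i < 8, front ((step σ)^[i] ((x, y), 2)) ∈ ([(x - 1, y), (x - 2, y), (x - 3, y), (x - 2, y + 1), (x - 3, y + 2), (x - 4, y + 2), (x - 4, y + 1), (x - 3, y + 1)] : List (ℤ × ℤ))) ∧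
    ∀ s, Val σ s → Tch (x - 3, y + 1) s → ∃ i, 0 < i ∧ i < 8 ∧ (step σ)^[i] ((x, y), 2) = s := by
  have h0 : (step σ)^[0] ((x, y), 2) = ((x, y), 2) := rfl
  have h1 : (step σ)^[1] ((x, y), 2) = ((x - 1, y), 1) :=
    it_succ h0 (step_t (a := -1) (b := 0) rfl rfl (by ring) (by ring) p1)
  have h2 : (step σ)^[2] ((x, y), 2) = ((x - 1, y), 2) :=
    it_succ h1 (step_f (a := -1) (b := 1) (x' := x - 2) (y' := y + 1) rfl rfl (by ring) (by ring) m1)
  have h3 : (step σ)^[3] ((x, y), 2) = ((x - 2, y), 1) :=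
    it_succ h2 (step_t (a := -1) (b := 0) rfl rfl (by ring) (by ring) p2)
  have h4 : (step σ)^[4] ((x, y), 2) = ((x - 3, y + 1), 0) :=
    it_succ h3 (step_t (a := -1) (b := 1) rfl rfl (by ring) (by ring) hf)
  have h5 : (step σ)^[5] ((x, y), 2) = ((x - 3, y + 1), 1) :=
    it_succ h4 (step_f (a := 0) (b := 1) (x' := x - 3) (y' := y + 2) rfl rfl (by ring) (by ring) m2)
  have h6 : (step σ)^[6] ((x, y), 2) = ((x - 3, y + 1), 2) :=
    it_succ h5 (step_f (a := -1) (b := 1) (x' := x - 4) (y' := y + 2) rfl rfl (by ring) (by ring) m3)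
  have h7 : (step σ)^[7] ((x, y), 2) = ((x - 3, y + 1), 3) :=
    it_succ h6 (step_f (a := -1) (b := 0) (x' := x - 4) (y' := y + 1) rfl rfl (by ring) (by ring) m4)
  have h8 : (step σ)^[8] ((x, y), 2) = ((x - 3, y), 2) :=
    it_succ h7 (step_t (a := 0) (b := -1) rfl rfl (by ring) (by ring) p3)
  refine ⟨h8, ?_, ?_⟩
  · intro i hi
    interval_cases i
    · rw [h0, fr (a := -1) (b := 0) (x' := x - 1) (y' := y) rfl (by ring) (by ring)]; simp
    · rw [h1, fr (a := -1) (b := 1) (x' := x - 2) (y' := y + 1) rfl (by ring) (by ring)]; simp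
    · rw [h2, fr (a := -1) (b := 0) (x' := x - 2) (y' := y) rfl (by ring) (by ring)]; simp
    · rw [h3, fr (a := -1) (b := 1) (x' := x - 3) (y' := y + 1) rfl (by ring) (by ring)]; simp
    · rw [h4, fr (a := 0) (b := 1) (x' := x - 3) (y' := y + 2) rfl (by ring) (by ring)]; simp
    · rw [h5, fr (a := -1) (b := 1) (x' := x - 4) (y' := y + 2) rfl (by ring) (by ring)]; simp
    · rw [h6, fr (a := -1) (b := 0) (x' := x - 4) (y' := y + 1) rfl (by ring) (by ring)]; simp
    · rw [h7, fr (a := 0) (b := -1) (x' := x - 3) (y' := y) rfl (by ring) (by ring)]; simp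
  · intro s hv ht
    have ht' := touch hv ht
    simp only [show x - 3 + 1 = x - 2 by ring, show x - 3 - 1 = x - 4 by ring, show y + 1 + 1 = y + 2 by ring, show y + 1 - 1 = y by ring] at ht'
    rw [m1, m2, m3, m4, p3, p2, hf] at ht'
    simp only [Bool.false_eq_true, Bool.true_eq_false, and_false, false_and, or_false, false_or,
      and_true, true_and] at ht'
    rcases ht' with (rfl | rfl | rfl | rfl) | rfl
    · exact ⟨4, by norm_num, by norm_num, h4⟩
    · exact ⟨5, by norm_num, by norm_num, h5⟩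
    · exact ⟨6, by norm_num, by norm_num, h6⟩
    · exact ⟨7, by norm_num, by norm_num, h7⟩
    · exact ⟨3, by norm_num, by norm_num, h3⟩

theorem case4_f {σ : ℤ × ℤ → Bool} {x y : ℤ} (p1 : σ (x + 1, y) = true) (p2 : σ (x + 1, y + 1) = true) (p3 : σ (x + 2, y + 1) = true) (p4 : σ (x + 3, y) = true) (m1 : σ (x + 1, y - 1) = false) (m2 : σ (x + 2, y - 1) = false) (m3 : σ (x + 3, y - 1) = false) (hf : σ (x + 2, y) = false) :
    (step σ)^[8] ((x, y), 4) = ((x + 3, y), 4) ∧
    (∀ i < 8, front ((step σ)^[i] ((x, y), 4)) ∈ ([(x + 1, y), (x + 1, y + 1), (x + 2, y + 1), (x + 3, y), (x + 1, y - 1), (x + 2, y - 1), (x + 3, y - 1), (x + 2, y)] : List (ℤ × ℤ))) ∧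
    ∀ s, Val σ s → Tch (x + 2, y) s → ∃ i, 0 < i ∧ i < 8 ∧ (step σ)^[i] ((x, y), 4) = s := by
  have h0 : (step σ)^[0] ((x, y), 4) = ((x, y), 4) := rfl
  have h1 : (step σ)^[1] ((x, y), 4) = ((x, y), 5) :=
    it_succ h0 (step_f (a := 1) (b := -1) (x' := x + 1) (y' := y - 1) rfl rfl (by ring) (by ring) m1)
  have h2 : (step σ)^[2] ((x, y), 4) = ((x + 1, y), 4) :=
    it_succ h1 (step_t (a := 1) (b := 0) rfl rfl (by ring) (by ring) p1)
  have h3 : (step σ)^[3] ((x, y), 4) = ((x + 1, y), 5) :=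
    it_succ h2 (step_f (a := 1) (b := -1) (x' := x + 2) (y' := y - 1) rfl rfl (by ring) (by ring) m2)
  have h4 : (step σ)^[4] ((x, y), 4) = ((x + 1, y), 0) :=
    it_succ h3 (step_f (a := 1) (b := 0) (x' := x + 2) (y' := y) rfl rfl (by ring) (by ring) hf)
  have h5 : (step σ)^[5] ((x, y), 4) = ((x + 1, y + 1), 5) :=
    it_succ h4 (step_t (a := 0) (b := 1) rfl rfl (by ring) (by ring) p2)
  have h6 : (step σ)^[6] ((x, y), 4) = ((x + 2, y + 1), 4) :=
    it_succ h5 (step_t (a := 1) (b := 0) rfl rfl (by ring) (by ring) p3)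
  have h7 : (step σ)^[7] ((x, y), 4) = ((x + 3, y), 3) :=
    it_succ h6 (step_t (a := 1) (b := -1) rfl rfl (by ring) (by ring) p4)
  have h8 : (step σ)^[8] ((x, y), 4) = ((x + 3, y), 4) :=
    it_succ h7 (step_f (a := 0) (b := -1) (x' := x + 3) (y' := y - 1) rfl rfl (by ring) (by ring) m3)
  refine ⟨h8, ?_, ?_⟩
  · intro i hi
    interval_cases i
    · rw [h0, fr (a := 1) (b := -1) (x' := x + 1) (y' := y - 1) rfl (by ring) (by ring)]; simp
    · rw [h1, fr (a := 1) (b := 0) (x' := x + 1) (y' := y) rfl (by ring) (by ring)]; simp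
    · rw [h2, fr (a := 1) (b := -1) (x' := x + 2) (y' := y - 1) rfl (by ring) (by ring)]; simp
    · rw [h3, fr (a := 1) (b := 0) (x' := x + 2) (y' := y) rfl (by ring) (by ring)]; simp
    · rw [h4, fr (a := 0) (b := 1) (x' := x + 1) (y' := y + 1) rfl (by ring) (by ring)]; simp
    · rw [h5, fr (a := 1) (b := 0) (x' := x + 2) (y' := y + 1) rfl (by ring) (by ring)]; simp
    · rw [h6, fr (a := 1) (b := -1) (x' := x + 3) (y' := y) rfl (by ring) (by ring)]; simp
    · rw [h7, fr (a := 0) (b := -1) (x' := x + 3) (y' := y - 1) rfl (by ring) (by ring)]; simp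
  · intro s hv ht
    have ht' := touch hv ht
    simp only [show x + 2 + 1 = x + 3 by ring, show x + 2 - 1 = x + 1 by ring] at ht'
    rw [p4, p3, p2, p1, m2, m3, hf] at ht'
    simp only [Bool.false_eq_true, Bool.true_eq_false, and_false, false_and, or_false, false_or,
      and_true, true_and] at ht'
    rcases ht' with (rfl | rfl | rfl | rfl) | rfl
    · exact ⟨4, by norm_num, by norm_num, h4⟩
    · exact ⟨7, by norm_num, by norm_num, h7⟩
    · exact ⟨6, by norm_num, by norm_num, h6⟩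
    · exact ⟨5, by norm_num, by norm_num, h5⟩
    · exact ⟨3, by norm_num, by norm_num, h3⟩

theorem case4_t {σ : ℤ × ℤ → Bool} {x y : ℤ} (p1 : σ (x + 1, y) = true) (p2 : σ (x + 1, y + 1) = true) (p3 : σ (x + 2, y + 1) = true) (p4 : σ (x + 3, y) = true) (m1 : σ (x + 1, y - 1) = false) (m2 : σ (x + 2, y - 1) = false) (m3 : σ (x + 3, y - 1) = false) (hf : σ (x + 2, y) = true) :
    (step σ)^[6] ((x, y), 4) = ((x + 3, y), 4) ∧
    (∀ i < 6, front ((step σ)^[i] ((x, y), 4)) ∈ ([(x + 1, y), (x + 1, y + 1), (x + 2, y + 1), (x + 3, y), (x + 1, y - 1), (x + 2, y - 1), (x + 3, y - 1), (x + 2, y)] : List (ℤ × ℤ))) ∧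
    ∀ s, Val σ s → Tch (x + 2, y) s → ∃ i, 0 < i ∧ i < 6 ∧ (step σ)^[i] ((x, y), 4) = s := by
  have h0 : (step σ)^[0] ((x, y), 4) = ((x, y), 4) := rfl
  have h1 : (step σ)^[1] ((x, y), 4) = ((x, y), 5) :=
    it_succ h0 (step_f (a := 1) (b := -1) (x' := x + 1) (y' := y - 1) rfl rfl (by ring) (by ring) m1)
  have h2 : (step σ)^[2] ((x, y), 4) = ((x + 1, y), 4) :=
    it_succ h1 (step_t (a := 1) (b := 0) rfl rfl (by ring) (by ring) p1)
  have h3 : (step σ)^[3] ((x, y), 4) = ((x + 1, y), 5) :=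
    it_succ h2 (step_f (a := 1) (b := -1) (x' := x + 2) (y' := y - 1) rfl rfl (by ring) (by ring) m2)
  have h4 : (step σ)^[4] ((x, y), 4) = ((x + 2, y), 4) :=
    it_succ h3 (step_t (a := 1) (b := 0) rfl rfl (by ring) (by ring) hf)
  have h5 : (step σ)^[5] ((x, y), 4) = ((x + 2, y), 5) :=
    it_succ h4 (step_f (a := 1) (b := -1) (x' := x + 3) (y' := y - 1) rfl rfl (by ring) (by ring) m3)
  have h6 : (step σ)^[6] ((x, y), 4) = ((x + 3, y), 4) :=
    it_succ h5 (step_t (a := 1) (b := 0) rfl rfl (by ring) (by ring) p4)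
  refine ⟨h6, ?_, ?_⟩
  · intro i hi
    interval_cases i
    · rw [h0, fr (a := 1) (b := -1) (x' := x + 1) (y' := y - 1) rfl (by ring) (by ring)]; simp
    · rw [h1, fr (a := 1) (b := 0) (x' := x + 1) (y' := y) rfl (by ring) (by ring)]; simp
    · rw [h2, fr (a := 1) (b := -1) (x' := x + 2) (y' := y - 1) rfl (by ring) (by ring)]; simp
    · rw [h3, fr (a := 1) (b := 0) (x' := x + 2) (y' := y) rfl (by ring) (by ring)]; simp
    · rw [h4, fr (a := 1) (b := -1) (x' := x + 3) (y' := y - 1) rfl (by ring) (by ring)]; simp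
    · rw [h5, fr (a := 1) (b := 0) (x' := x + 3) (y' := y) rfl (by ring) (by ring)]; simp
  · intro s hv ht
    have ht' := touch hv ht
    simp only [show x + 2 + 1 = x + 3 by ring, show x + 2 - 1 = x + 1 by ring] at ht'
    rw [p4, p3, p2, p1, m2, m3, hf] at ht'
    simp only [Bool.false_eq_true, Bool.true_eq_false, and_false, false_and, or_false, false_or,
      and_true, true_and] at ht'
    rcases ht' with (rfl | rfl) | rfl
    · exact ⟨4, by norm_num, by norm_num, h4⟩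
    · exact ⟨5, by norm_num, by norm_num, h5⟩
    · exact ⟨3, by norm_num, by norm_num, h3⟩

theorem pass : Pool.Agent.N929.OM.S_PASS := by
  intro σ s hs hG p hp
  obtain ⟨⟨x, y⟩, k⟩ := s
  obtain ⟨hP, hM⟩ := hG
  simp only at hs
  rcases hs with rfl | rfl | rfl
  · have e1 : pls ((x, y), 0) = [(x, y + 1), (x, y + 2), (x, y + 3)] := by
      simp [pls, sub_eq_add_neg]
    have e2 : mns ((x, y), 0) = [(x + 1, y + 1), (x + 2, y + 1), (x + 2, y + 2), (x + 1, y + 3)] := by
      simp [mns, sub_eq_add_neg]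
    have e3 : mid ((x, y), 0) = (x + 1, y + 2) := by
      simp [mid, sub_eq_add_neg]
    have e4 : nx ((x, y), 0) = ((x, y + 3), 0) := by
      simp [nx, sub_eq_add_neg]
    have e5 : Pool.Agent.N929.OM.Lng σ ((x, y), 0) ↔ σ (x + 1, y + 2) = true := by
      unfold Pool.Agent.N929.OM.Lng
      rw [e3]
      simp
    rw [e1] at hP
    rw [e2] at hM
    rw [e1, e2, e3, e4]
    simp only [List.mem_cons, List.not_mem_nil, or_false, forall_eq_or_imp, forall_eq] at hP hM
    obtain ⟨p1, p2, p3⟩ := hP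
    obtain ⟨m1, m2, m3, m4⟩ := hM
    by_cases hf : σ (x + 1, y + 2) = true
    · rw [if_pos (by rw [e5]; exact hf)] at hp
      subst hp
      exact case0_t p1 p2 p3 m1 m2 m3 m4 hf
    · have hf' := Bool.eq_false_iff.2 hf
      rw [if_neg (by rw [e5, hf']; simp)] at hp
      subst hp
      exact case0_f p1 p2 p3 m1 m2 m3 m4 hf'
  · have e1 : pls ((x, y), 2) = [(x - 1, y), (x - 2, y), (x - 3, y)] := by
      simp [pls, sub_eq_add_neg]
    have e2 : mns ((x, y), 2) = [(x - 2, y + 1), (x - 3, y + 2), (x - 4, y + 2), (x - 4, y + 1)] := by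
      simp [mns, sub_eq_add_neg]
    have e3 : mid ((x, y), 2) = (x - 3, y + 1) := by
      simp [mid, sub_eq_add_neg]
    have e4 : nx ((x, y), 2) = ((x - 3, y), 2) := by
      simp [nx, sub_eq_add_neg]
    have e5 : Pool.Agent.N929.OM.Lng σ ((x, y), 2) ↔ σ (x - 3, y + 1) = true := by
      unfold Pool.Agent.N929.OM.Lng
      rw [e3]
      simp
    rw [e1] at hP
    rw [e2] at hM
    rw [e1, e2, e3, e4]
    simp only [List.mem_cons, List.not_mem_nil, or_false, forall_eq_or_imp, forall_eq] at hP hM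
    obtain ⟨p1, p2, p3⟩ := hP
    obtain ⟨m1, m2, m3, m4⟩ := hM
    by_cases hf : σ (x - 3, y + 1) = true
    · rw [if_pos (by rw [e5]; exact hf)] at hp
      subst hp
      exact case2_t p1 p2 p3 m1 m2 m3 m4 hf
    · have hf' := Bool.eq_false_iff.2 hf
      rw [if_neg (by rw [e5, hf']; simp)] at hp
      subst hp
      exact case2_f p1 p2 p3 m1 m2 m3 m4 hf'
  · have e1 : pls ((x, y), 4) = [(x + 1, y), (x + 1, y + 1), (x + 2, y + 1), (x + 3, y)] := by
      simp [pls, sub_eq_add_neg]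
    have e2 : mns ((x, y), 4) = [(x + 1, y - 1), (x + 2, y - 1), (x + 3, y - 1)] := by
      simp [mns, sub_eq_add_neg]
    have e3 : mid ((x, y), 4) = (x + 2, y) := by
      simp [mid, sub_eq_add_neg]
    have e4 : nx ((x, y), 4) = ((x + 3, y), 4) := by
      simp [nx, sub_eq_add_neg]
    have e5 : Pool.Agent.N929.OM.Lng σ ((x, y), 4) ↔ σ (x + 2, y) = false := by
      unfold Pool.Agent.N929.OM.Lng
      rw [e3]
      simp
    rw [e1] at hP
    rw [e2] at hM
    rw [e1, e2, e3, e4]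
    simp only [List.mem_cons, List.not_mem_nil, or_false, forall_eq_or_imp, forall_eq] at hP hM
    obtain ⟨p1, p2, p3, p4⟩ := hP
    obtain ⟨m1, m2, m3⟩ := hM
    by_cases hf : σ (x + 2, y) = true
    · rw [if_neg (by rw [e5, hf]; simp)] at hp
      subst hp
      exact case4_t p1 p2 p3 p4 m1 m2 m3 hf
    · have hf' := Bool.eq_false_iff.2 hf
      rw [if_pos (by rw [e5, hf'])] at hp
      subst hp
      exact case4_f p1 p2 p3 p4 m1 m2 m3 hf'

end

end Pool.Agent.N324.OM
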